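import Pool.Agent.H334R2.CM.Defs

/-!
# Task LOC: equivalence of idempotents, local idempotents, dimensions of Peirce components
-/

set_option autoImplicit false
open scoped Matrix MatrixGroups
universe u
namespace CM

section
variable {k : Type u} [Field k] {A : Type u} [Ring A] [Algebra k A]

theorem Eqv.symm {e f : A} (h : Eqv e f) : Eqv f e := by
  obtain ⟨x, y, hx, hy, hxy, hyx⟩ := h
  exact ⟨y, x, hy, hx, hyx, hxy⟩

theorem Eqv.trans {e f g : A} (h : Eqv e f) (h' : Eqv f g) : Eqv e g := by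
  obtain ⟨x, y, ⟨hx1, hx2⟩, ⟨hy1, hy2⟩, hxy, hyx⟩ := h
  obtain ⟨x', y', ⟨hx1', hx2'⟩, ⟨hy1', hy2'⟩, hxy', hyx'⟩ := h'
  refine ⟨x * x', y' * y, ⟨?_, ?_⟩, ⟨?_, ?_⟩, ?_, ?_⟩
  · rw [← mul_assoc, hx1]
  · rw [mul_assoc, hx2']
  · rw [← mul_assoc, hy1']
  · rw [mul_assoc, hy2]
  · calc x * x' * (y' * y) = x * (x' * y') * y := by simp only [mul_assoc]
      _ = e := by rw [hxy', hx2, hxy]
  · calc y' * y * (x * x') = y' * ((y * x) * x') := by simp only [mul_assoc]
      _ = g := by rw [hyx, hx1', hyx']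

theorem Eqv.isLoc {e f : A} (h : Eqv e f) (he : IsLoc k e) : IsLoc k f := by
  obtain ⟨x, y, ⟨hx1, hx2⟩, ⟨hy1, hy2⟩, hxy, hyx⟩ := h
  obtain ⟨he0, hee, hloc⟩ := he
  refine ⟨?_, ?_, ?_⟩
  · intro hf
    apply he0
    rw [← hxy, ← hx2, hf, mul_zero, zero_mul]
  · rw [← hyx, ← mul_assoc, mul_assoc y x y, hxy, hy2]
  · rintro z ⟨hz1, hz2⟩
    have hw : x * z * y ∈ cor k e e := by
      refine ⟨?_, ?_⟩
      · rw [← mul_assoc, ← mul_assoc, hx1]
      · rw [mul_assoc, hy2]
    obtain ⟨c, hc⟩ := hloc _ hw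
    refine ⟨c, ?_⟩
    set n := x * z * y - c • e with hn
    have hen : e * n = n := by
      rw [hn, mul_sub, hw.1, mul_smul_comm, hee]
    have hz : z - c • f = y * n * x := by
      have e1 : y * (x * z * y) * x = z := by
        calc y * (x * z * y) * x = (y * x) * z * (y * x) := by simp only [mul_assoc]
          _ = z := by rw [hyx, hz1, hz2]
      rw [hn, mul_sub, sub_mul, e1, mul_smul_comm, smul_mul_assoc, hy2, hyx]
    have hpow : ∀ r : ℕ, (y * n * x) ^ (r + 1) = y * n ^ (r + 1) * x := by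
      intro r
      induction r with
      | zero => simp only [zero_add, pow_one]
      | succ r ih =>
        rw [pow_succ, ih]
        calc y * n ^ (r + 1) * x * (y * n * x) = y * n ^ (r + 1) * ((x * y) * n) * x := by
              simp only [mul_assoc]
          _ = y * n ^ (r + 1 + 1) * x := by rw [hxy, hen, mul_assoc y, ← pow_succ]
    obtain ⟨r, hr⟩ := hc
    refine ⟨r + 1, ?_⟩
    rw [hz, hpow, pow_succ, hr, zero_mul, mul_zero, zero_mul]

/-- an idempotent of `f A f` different from `0` is `f` if `f` is local -/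
private theorem loc_idem {f t : A} (hf : IsLoc k f) (ht : t ∈ cor k f f) (htt : t * t = t)
    (ht0 : t ≠ 0) : t = f := by
  obtain ⟨_, hff, hloc⟩ := hf
  obtain ⟨c, r, hr⟩ := hloc t ht
  obtain ⟨h1, h2⟩ := ht
  by_cases hc : c = 0
  · exfalso
    rw [hc, zero_smul, sub_zero] at hr
    have hpow : ∀ s : ℕ, t ^ (s + 1) = t := by
      intro s
      induction s with
      | zero => rw [zero_add, pow_one]
      | succ s ih => rw [pow_succ, ih, htt]
    have h3 := hpow r
    rw [pow_succ, hr, zero_mul] at h3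
    exact ht0 h3.symm
  · have hmul : (f - t) * (t - c • f) = (-c) • (f - t) := by
      rw [sub_mul, mul_sub, mul_sub, mul_smul_comm, mul_smul_comm, hff, h1, h2, htt, neg_smul,
        smul_sub]
      abel
    have hpow : ∀ s : ℕ, (f - t) * (t - c • f) ^ s = (-c) ^ s • (f - t) := by
      intro s
      induction s with
      | zero => rw [pow_zero, pow_zero, mul_one, one_smul]
      | succ s ih =>
        rw [pow_succ, ← mul_assoc, ih, smul_mul_assoc, hmul, smul_smul, ← pow_succ]
    have h3 := hpow r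
    rw [hr, mul_zero] at h3
    have h4 : f - t = 0 := by
      rcases smul_eq_zero.1 h3.symm with h | h
      · exact absurd h (pow_ne_zero r (neg_ne_zero.2 hc))
      · exact h
    exact (sub_eq_zero.1 h4).symm

/-- two local idempotents acting nontrivially on the same simple module are equivalent -/
theorem LOC_eqv {e f : A} (he : IsLoc k e) (hf : IsLoc k f) (M : Type u) [AddCommGroup M]
    [Module A M] (hM : IsSimpleModule A M) (h1 : ∃ m : M, e • m ≠ 0) (h2 : ∃ m : M, f • m ≠ 0) :
    Eqv e f := by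
  obtain ⟨m1, hm1⟩ := h1
  obtain ⟨m2, hm2⟩ := h2
  have he0 := he.1
  have hee := he.2.1
  have hff := hf.2.1
  set m := e • m1 with hm
  set m' := f • m2 with hm'
  have hem : e • m = m := by rw [hm, ← mul_smul, hee]
  have hfm : f • m' = m' := by rw [hm', ← mul_smul, hff]
  obtain ⟨a, ha⟩ := IsSimpleModule.toSpanSingleton_surjective A hm1 m'
  obtain ⟨b, hb⟩ := IsSimpleModule.toSpanSingleton_surjective A hm2 m
  rw [LinearMap.toSpanSingleton_apply] at ha hb
  set y0 := f * a * e with hy0
  set x0 := e * b * f with hx0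
  have hy01 : f * y0 = y0 := by rw [hy0, ← mul_assoc, ← mul_assoc, hff]
  have hy02 : y0 * e = y0 := by rw [hy0, mul_assoc, hee]
  have hx01 : e * x0 = x0 := by rw [hx0, ← mul_assoc, ← mul_assoc, hee]
  have hx02 : x0 * f = x0 := by rw [hx0, mul_assoc, hff]
  have hact : (x0 * y0) • m = m := by
    rw [hx0, hy0]
    simp only [mul_smul]
    rw [hem, ha, hfm, hfm, hb, hem]
  have hp : x0 * y0 ∈ cor k e e := ⟨by rw [← mul_assoc, hx01], by rw [mul_assoc, hy02]⟩
  obtain ⟨c, hc⟩ := he.2.2 _ hp
  have hc0 : c ≠ 0 := by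
    rintro rfl
    rw [zero_smul, sub_zero] at hc
    obtain ⟨r, hr⟩ := hc
    have hpow : ∀ s : ℕ, (x0 * y0) ^ s • m = m := by
      intro s
      induction s with
      | zero => rw [pow_zero, one_smul]
      | succ s ih => rw [pow_succ, mul_smul, hact, ih]
    have h3 := hpow r
    rw [hr, zero_smul] at h3
    exact hm1 h3.symm
  -- `x0 * y0 = c • (e - n')`
  set n' := -(c⁻¹ • (x0 * y0 - c • e)) with hn'
  have hn'nil : IsNilpotent n' := by
    rw [hn']
    exact (hc.smul c⁻¹).neg
  have hxy0 : x0 * y0 = c • (e - n') := by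
    rw [hn', sub_neg_eq_add, smul_add, smul_smul, mul_inv_cancel₀ hc0, one_smul]
    abel
  have hn'e : n' * e = n' := by
    rw [hn', neg_mul, smul_mul_assoc, sub_mul, hp.2, smul_mul_assoc, hee]
  have hen' : e * n' = n' := by
    rw [hn', mul_neg, mul_smul_comm, mul_sub, hp.1, mul_smul_comm, hee]
  obtain ⟨v, hv⟩ := hn'nil.isUnit_one_sub
  set z := c⁻¹ • (e * ((v⁻¹ : Aˣ) : A) * e) with hz
  have hzxy : z * (x0 * y0) = e := by
    have e1 : e * (e - n') = (1 - n') * e := by
      rw [mul_sub, hee, hen', sub_mul, one_mul, hn'e]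
    calc z * (x0 * y0) = (c⁻¹ * c) • (e * ((v⁻¹ : Aˣ) : A) * (e * (e - n'))) := by
          rw [hz, hxy0, smul_mul_smul_comm, mul_assoc (e * ((v⁻¹ : Aˣ) : A))]
      _ = e * (((v⁻¹ : Aˣ) : A) * (1 - n')) * e := by
          rw [inv_mul_cancel₀ hc0, one_smul, e1]
          simp only [mul_assoc]
      _ = e := by rw [← hv, Units.inv_mul, mul_one, hee]
  have hez : e * z = z := by
    rw [hz, mul_smul_comm, ← mul_assoc, ← mul_assoc, hee]
  have hxy : z * x0 * y0 = e := by rw [mul_assoc, hzxy]
  refine ⟨z * x0, y0, ⟨?_, ?_⟩, ⟨hy01, hy02⟩, hxy, ?_⟩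
  · rw [← mul_assoc, hez]
  · rw [mul_assoc, hx02]
  · refine loc_idem hf ⟨?_, ?_⟩ ?_ ?_
    · rw [← mul_assoc, hy01]
    · rw [mul_assoc y0, mul_assoc z, hx02]
    · calc y0 * (z * x0) * (y0 * (z * x0)) = y0 * (z * x0 * y0) * (z * x0) := by
            simp only [mul_assoc]
        _ = y0 * (z * x0) := by rw [hxy, hy02]
    · intro h0
      apply he0
      calc e = e * e := hee.symm
        _ = (z * x0 * y0) * (z * x0 * y0) := by rw [hxy]
        _ = z * x0 * (y0 * (z * x0)) * y0 := by simp only [mul_assoc]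
        _ = 0 := by rw [h0, mul_zero, zero_mul]

/-- equivalent idempotents act nontrivially on the same modules -/
theorem Eqv.act {e f : A} (h : Eqv e f) (M : Type u) [AddCommGroup M]
    [Module A M] (h1 : ∃ m : M, e • m ≠ 0) : ∃ m : M, f • m ≠ 0 := by
  obtain ⟨x, y, ⟨hx1, hx2⟩, ⟨hy1, hy2⟩, hxy, hyx⟩ := h
  obtain ⟨m, hm⟩ := h1
  refine ⟨y • m, fun h0 => hm ?_⟩
  rw [← mul_smul, hy1] at h0
  rw [← hxy, mul_smul, h0, smul_zero]

variable [FiniteDimensional k A]

theorem Eqv.finrank_left {e f : A} (h : Eqv e f) (g : A) :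
    Module.finrank k (cor k e g) = Module.finrank k (cor k f g) := by
  obtain ⟨x, y, ⟨hx1, hx2⟩, ⟨hy1, hy2⟩, hxy, hyx⟩ := h
  refine LinearEquiv.finrank_eq
    { toFun := fun z => ⟨y * z.1, by rw [← mul_assoc, hy1], by rw [mul_assoc, z.2.2]⟩
      invFun := fun z => ⟨x * z.1, by rw [← mul_assoc, hx1], by rw [mul_assoc, z.2.2]⟩
      map_add' := fun z z' => Subtype.ext (mul_add _ _ _)
      map_smul' := fun c z => Subtype.ext (mul_smul_comm _ _ _)
      left_inv := fun z => Subtype.ext (by
        show x * (y * z.1) = z.1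
        rw [← mul_assoc, hxy, z.2.1])
      right_inv := fun z => Subtype.ext (by
        show y * (x * z.1) = z.1
        rw [← mul_assoc, hyx, z.2.1]) }

theorem Eqv.finrank_right {e f : A} (h : Eqv e f) (g : A) :
    Module.finrank k (cor k g e) = Module.finrank k (cor k g f) := by
  obtain ⟨x, y, ⟨hx1, hx2⟩, ⟨hy1, hy2⟩, hxy, hyx⟩ := h
  refine LinearEquiv.finrank_eq
    { toFun := fun z => ⟨z.1 * x, by rw [← mul_assoc, z.2.1], by rw [mul_assoc, hx2]⟩
      invFun := fun z => ⟨z.1 * y, by rw [← mul_assoc, z.2.1], by rw [mul_assoc, hy2]⟩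
      map_add' := fun z z' => Subtype.ext (add_mul _ _ _)
      map_smul' := fun c z => Subtype.ext (smul_mul_assoc _ _ _)
      left_inv := fun z => Subtype.ext (by
        show z.1 * x * y = z.1
        rw [mul_assoc, hxy, z.2.2])
      right_inv := fun z => Subtype.ext (by
        show z.1 * y * x = z.1
        rw [mul_assoc, hyx, z.2.2]) }

theorem finrank_cor_sum_left {ι : Type} [Fintype ι] (f : ι → A) (hf : ∀ i, f i * f i = f i)
    (ho : ∀ i j, i ≠ j → f i * f j = 0) (g : A) :
    Module.finrank k (cor k (∑ i, f i) g) = ∑ i, Module.finrank k (cor k (f i) g) := by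
  classical
  have hsum : ∀ (i : ι) (z : ∀ j, cor k (f j) g), f i * (∑ j, (z j).1) = (z i).1 := by
    intro i z
    rw [Finset.mul_sum, Finset.sum_eq_single i]
    · exact (z i).2.1
    · intro j _ hj
      rw [← (z j).2.1, ← mul_assoc, ho i j (Ne.symm hj), zero_mul]
    · intro h; exact absurd (Finset.mem_univ i) h
  rw [← Module.finrank_pi_fintype k]
  exact LinearEquiv.finrank_eq
    { toFun := fun z i => ⟨f i * z.1, by rw [← mul_assoc, hf], by rw [mul_assoc, z.2.2]⟩
      invFun := fun z => ⟨∑ j, (z j).1, by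
        rw [Finset.sum_mul]
        exact Finset.sum_congr rfl fun i _ => hsum i z, by
        rw [Finset.sum_mul]
        exact Finset.sum_congr rfl fun i _ => (z i).2.2⟩
      map_add' := fun z z' => funext fun i => Subtype.ext (mul_add _ _ _)
      map_smul' := fun c z => funext fun i => Subtype.ext (mul_smul_comm _ _ _)
      left_inv := fun z => Subtype.ext (by
        show ∑ j, f j * z.1 = z.1
        rw [← Finset.sum_mul, z.2.1])
      right_inv := fun z => funext fun i => Subtype.ext (hsum i z) }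

theorem finrank_cor_sum_right {ι : Type} [Fintype ι] (f : ι → A) (hf : ∀ i, f i * f i = f i)
    (ho : ∀ i j, i ≠ j → f i * f j = 0) (g : A) :
    Module.finrank k (cor k g (∑ i, f i)) = ∑ i, Module.finrank k (cor k g (f i)) := by
  classical
  have hsum : ∀ (i : ι) (z : ∀ j, cor k g (f j)), (∑ j, (z j).1) * f i = (z i).1 := by
    intro i z
    rw [Finset.sum_mul, Finset.sum_eq_single i]
    · exact (z i).2.2
    · intro j _ hj
      rw [← (z j).2.2, mul_assoc, ho j i hj, mul_zero]
    · intro h; exact absurd (Finset.mem_univ i) h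
  rw [← Module.finrank_pi_fintype k]
  exact LinearEquiv.finrank_eq
    { toFun := fun z i => ⟨z.1 * f i, by rw [← mul_assoc, z.2.1], by rw [mul_assoc, hf]⟩
      invFun := fun z => ⟨∑ j, (z j).1, by
        rw [Finset.mul_sum]
        exact Finset.sum_congr rfl fun i _ => (z i).2.1, by
        rw [Finset.mul_sum]
        exact Finset.sum_congr rfl fun i _ => hsum i z⟩
      map_add' := fun z z' => funext fun i => Subtype.ext (add_mul _ _ _)
      map_smul' := fun c z => funext fun i => Subtype.ext (smul_mul_assoc _ _ _)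
      left_inv := fun z => Subtype.ext (by
        show ∑ j, z.1 * f j = z.1
        rw [← Finset.mul_sum, z.2.2])
      right_inv := fun z => funext fun i => Subtype.ext (hsum i z) }

end

end CM
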